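import Pool.Agent.Helper91K1.PQ.Stm

/-!
# Project PQ of helper91, piece ONE (helper64)
-/

set_option autoImplicit false

open MeasureTheory Filter Topology Finset
open scoped ENNReal

namespace Pool.Agent.Helper64.PQ

open Pool.Agent.Helper91K1.PQ

/-- the real numbers with integral part in `A` -/
def W (A : Set ℤ) : Set ℝ := {u | ⌊u⌋ ∈ A}

theorem meas_W (A : Set ℤ) : MeasurableSet (W A) := Int.measurable_floor MeasurableSet.of_discrete

open Classical in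
/-- the number of the elements of `A` in `[m, n)` -/
noncomputable def cnt (A : Set ℤ) (m n : ℤ) : ℕ := ((Finset.Ico m n).filter (· ∈ A)).card

theorem vol_int (A : Set ℤ) (m n : ℤ) :
    volume (W A ∩ Set.Ico (m : ℝ) n) = (cnt A m n : ℝ≥0∞) := by
  classical
  have h1 : W A ∩ Set.Ico (m : ℝ) n =
      ⋃ k ∈ (Finset.Ico m n).filter (· ∈ A), Set.Ico (k : ℝ) (k + 1) := by
    ext u
    simp only [W, Set.mem_inter_iff, Set.mem_ofPred_eq, Set.mem_Ico, Set.mem_iUnion,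
      Finset.mem_filter, Finset.mem_Ico, exists_prop]
    constructor
    · rintro ⟨h, h2, h3⟩
      exact ⟨⌊u⌋, ⟨⟨Int.le_floor.2 h2, Int.floor_lt.2 h3⟩, h⟩, Int.floor_le u,
        Int.lt_floor_add_one u⟩
    · rintro ⟨k, ⟨⟨h2, h3⟩, h⟩, h4, h5⟩
      have h6 : ⌊u⌋ = k := Int.floor_eq_iff.2 ⟨h4, h5⟩
      refine ⟨h6 ▸ h, ?_, ?_⟩
      · exact le_trans (by exact_mod_cast h2) h4
      · have : (k : ℝ) + 1 ≤ n := by exact_mod_cast h3
        linarith
  rw [h1, measure_biUnion_finset]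
  · simp [Real.volume_Ico, cnt]
  · intro k _ l _ hkl
    refine Set.disjoint_left.2 fun u h2 h3 => hkl ?_
    have h4 : ⌊u⌋ = k := Int.floor_eq_iff.2 h2
    have h5 : ⌊u⌋ = l := Int.floor_eq_iff.2 h3
    rw [← h4, ← h5]
  · intro k _
    exact measurableSet_Ico

theorem cnt_add (A : Set ℤ) {m n r : ℤ} (h1 : m ≤ n) (h2 : n ≤ r) :
    cnt A m r = cnt A m n + cnt A n r := by
  classical
  unfold cnt
  rw [← Finset.card_union_of_disjoint]
  · congr 1
    ext x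
    simp only [Finset.mem_union, Finset.mem_filter, Finset.mem_Ico]
    constructor
    · rintro ⟨h3, h4⟩
      rcases lt_or_ge x n with h5 | h5
      · exact Or.inl ⟨⟨h3.1, h5⟩, h4⟩
      · exact Or.inr ⟨⟨h5, h3.2⟩, h4⟩
    · rintro (⟨h3, h4⟩ | ⟨h3, h4⟩)
      · exact ⟨⟨h3.1, lt_of_lt_of_le h3.2 h2⟩, h4⟩
      · exact ⟨⟨h1.trans h3.1, h3.2⟩, h4⟩
  · rw [Finset.disjoint_left]
    intro x h3 h4
    simp only [Finset.mem_filter, Finset.mem_Ico] at h3 h4
    omega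

theorem cnt_block (A : Set ℤ) (k : ℤ) (L : ℕ) :
    cnt A (k * L + 1) (k * L + L + 1) = (A ∩ Set.Ioc (k * L) (k * L + L)).ncard := by
  classical
  have h1 : A ∩ Set.Ioc (k * L) (k * L + L) =
      (((Finset.Ico (k * L + 1) (k * L + L + 1)).filter (· ∈ A) : Finset ℤ) : Set ℤ) := by
    ext x
    simp only [Set.mem_inter_iff, Set.mem_Ioc, Finset.coe_filter, Finset.mem_Ico,
      Set.mem_ofPred_eq]
    constructor
    · rintro ⟨h2, h3, h4⟩
      exact ⟨⟨by omega, by omega⟩, h2⟩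
    · rintro ⟨⟨h3, h4⟩, h2⟩
      exact ⟨h2, by omega, by omega⟩
  rw [h1, Set.ncard_coe_finset]
  rfl

theorem cnt_step (A : Set ℤ) (k : ℤ) (L j : ℕ) : cnt A (k * L + 1) ((k + (j + 1 : ℕ)) * L + 1) =
    cnt A (k * L + 1) ((k + j) * L + 1) +
      (A ∩ Set.Ioc ((k + j) * L) ((k + j) * L + L)).ncard := by
  have h1 : k * (L : ℤ) + 1 ≤ (k + j) * L + 1 := by nlinarith [mul_nonneg (Int.natCast_nonneg j) (Int.natCast_nonneg L)]
  have h2 : (k + j) * (L : ℤ) + 1 ≤ (k + (j + 1 : ℕ)) * L + 1 := by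
    push_cast
    nlinarith [Int.natCast_nonneg L]
  rw [cnt_add A h1 h2, ← cnt_block]
  congr 2
  push_cast
  ring

theorem cnt_le {A : Set ℤ} {L T : ℕ} (h : Sub L T A) (k : ℤ) (j : ℕ) :
    cnt A (k * L + 1) ((k + j) * L + 1) ≤ j * T := by
  induction j with
  | zero => simp [cnt]
  | succ j ih =>
    rw [cnt_step]
    have := h (k + j)
    calc _ ≤ j * T + T := add_le_add ih this
      _ = (j + 1) * T := by ring

theorem cnt_eq {A : Set ℤ} {L T : ℕ} (h : Bal L T A) (k : ℤ) (j : ℕ) :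
    cnt A (k * L + 1) ((k + j) * L + 1) = j * T := by
  induction j with
  | zero => simp [cnt]
  | succ j ih =>
    rw [cnt_step, ih, h (k + j)]
    ring

theorem one_le {A : Set ℤ} {L T : ℕ} (hL : 1 ≤ L) (hT : T ≤ L) (h : Sub L T A) {p q : ℝ}
    (hpq : p ≤ q) : volume (W A ∩ Set.Icc p q) ≤
      ENNReal.ofReal ((q - p) * ((T : ℝ) / L) + 2 * L) := by
  have hL0 : (0 : ℝ) < L := by exact_mod_cast hL
  set k0 : ℤ := ⌊(p - 1) / L⌋ with hk0
  set k1 : ℤ := ⌊(q - 1) / L⌋ with hk1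
  have hk : k0 ≤ k1 := Int.floor_mono (by gcongr)
  obtain ⟨j, hj⟩ : ∃ j : ℕ, k1 + 1 = k0 + j := ⟨(k1 + 1 - k0).toNat, by omega⟩
  have h1 : (k0 : ℝ) * L ≤ p - 1 := by
    have := Int.floor_le ((p - 1) / L)
    rwa [le_div_iff₀ hL0] at this
  have h1' : p - 1 < ((k0 : ℝ) + 1) * L := by
    have := Int.lt_floor_add_one ((p - 1) / L)
    rwa [div_lt_iff₀ hL0] at this
  have h2 : q - 1 < ((k1 : ℝ) + 1) * L := by
    have := Int.lt_floor_add_one ((q - 1) / L)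
    rwa [div_lt_iff₀ hL0] at this
  have h2' : (k1 : ℝ) * L ≤ q - 1 := by
    have := Int.floor_le ((q - 1) / L)
    rwa [le_div_iff₀ hL0] at this
  have hjr : (k1 : ℝ) + 1 = k0 + j := by exact_mod_cast hj
  have hsub : W A ∩ Set.Icc p q ⊆
      W A ∩ Set.Ico ((k0 * L + 1 : ℤ) : ℝ) (((k0 + j) * L + 1 : ℤ) : ℝ) := by
    rintro u ⟨hu, hu1, hu2⟩
    refine ⟨hu, ?_, ?_⟩
    · push_cast
      linarith
    · push_cast
      rw [← hjr]
      linarith
  refine (measure_mono hsub).trans ?_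
  rw [vol_int]
  have h3 : (cnt A (k0 * L + 1) ((k0 + j) * L + 1) : ℝ≥0∞) ≤ ((j * T : ℕ) : ℝ≥0∞) := by
    exact_mod_cast cnt_le h k0 j
  refine h3.trans ?_
  rw [← ENNReal.ofReal_natCast]
  refine ENNReal.ofReal_le_ofReal ?_
  have h4 : (j : ℝ) ≤ (q - p) / L + 2 := by
    have h5 : ((j : ℝ) - 2) * L ≤ q - p := by
      have : (j : ℝ) = k1 + 1 - k0 := by linarith
      rw [this]
      nlinarith
    have h6 := (le_div_iff₀ hL0).2 h5
    linarith
  have hT' : (T : ℝ) ≤ L := by exact_mod_cast hT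
  have hT0 : (0 : ℝ) ≤ T := Nat.cast_nonneg T
  calc ((j * T : ℕ) : ℝ) = j * T := by push_cast; ring
    _ ≤ ((q - p) / L + 2) * T := mul_le_mul_of_nonneg_right h4 hT0
    _ = (q - p) * ((T : ℝ) / L) + 2 * T := by ring
    _ ≤ _ := by linarith

theorem one_ge {A : Set ℤ} {L T : ℕ} (hL : 1 ≤ L) (hT : T ≤ L) (h : Bal L T A) {p q : ℝ}
    (hpq : p ≤ q) : ENNReal.ofReal ((q - p) * ((T : ℝ) / L) - 2 * L) ≤
      volume (W A ∩ Set.Icc p q) := by
  have hL0 : (0 : ℝ) < L := by exact_mod_cast hL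
  have hT' : (T : ℝ) ≤ L := by exact_mod_cast hT
  have hT0 : (0 : ℝ) ≤ T := Nat.cast_nonneg T
  set k0 : ℤ := ⌊(p - 1) / L⌋ with hk0
  set k1 : ℤ := ⌊(q - 1) / L⌋ with hk1
  have h1 : (k0 : ℝ) * L ≤ p - 1 := by
    have := Int.floor_le ((p - 1) / L)
    rwa [le_div_iff₀ hL0] at this
  have h1' : p - 1 < ((k0 : ℝ) + 1) * L := by
    have := Int.lt_floor_add_one ((p - 1) / L)
    rwa [div_lt_iff₀ hL0] at this
  have h2 : q - 1 < ((k1 : ℝ) + 1) * L := by
    have := Int.lt_floor_add_one ((q - 1) / L)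
    rwa [div_lt_iff₀ hL0] at this
  have h2' : (k1 : ℝ) * L ≤ q - 1 := by
    have := Int.floor_le ((q - 1) / L)
    rwa [le_div_iff₀ hL0] at this
  have h4 : (q - p) / L - 2 ≤ (k1 : ℝ) - k0 - 1 := by
    rw [sub_le_iff_le_add, div_le_iff₀ hL0]
    nlinarith
  have h5 : (q - p) * ((T : ℝ) / L) - 2 * L ≤ ((k1 : ℝ) - k0 - 1) * T := by
    calc (q - p) * ((T : ℝ) / L) - 2 * L ≤ (q - p) * ((T : ℝ) / L) - 2 * T := by linarith
      _ = ((q - p) / L - 2) * T := by ring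
      _ ≤ _ := mul_le_mul_of_nonneg_right h4 hT0
  by_cases hk : k0 + 1 ≤ k1
  · obtain ⟨j, hj⟩ : ∃ j : ℕ, k1 = k0 + 1 + j := ⟨(k1 - k0 - 1).toNat, by omega⟩
    have hjr : (k1 : ℝ) = k0 + 1 + j := by exact_mod_cast hj
    have hsub : W A ∩ Set.Ico (((k0 + 1) * L + 1 : ℤ) : ℝ) (((k0 + 1 + j) * L + 1 : ℤ) : ℝ) ⊆
        W A ∩ Set.Icc p q := by
      rintro u ⟨hu, hu1, hu2⟩
      push_cast at hu1 hu2
      rw [← hjr] at hu2
      exact ⟨hu, by linarith, by linarith⟩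
    refine le_trans ?_ (measure_mono hsub)
    rw [vol_int, cnt_eq h (k0 + 1) j, ← ENNReal.ofReal_natCast]
    refine ENNReal.ofReal_le_ofReal (h5.trans (le_of_eq ?_))
    push_cast
    rw [hjr]
    ring
  · have h6 : ((k1 : ℝ) - k0 - 1) ≤ 0 := by
      have : k1 ≤ k0 := by omega
      have : (k1 : ℝ) ≤ k0 := by exact_mod_cast this
      linarith
    rw [ENNReal.ofReal_of_nonpos (h5.trans (mul_nonpos_of_nonpos_of_nonneg h6 hT0))]
    exact zero_le

/-- the measure of a section -/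
theorem sec (A : Set ℤ) (N : ℕ) (hN : 1 ≤ N) (b b' c : ℝ) :
    volume {x : ℝ | x ∈ Set.Icc b b' ∧ ⌊x * (N : ℝ) ^ 2 + c⌋ ∈ A} =
      ENNReal.ofReal (((N : ℝ) ^ 2)⁻¹) *
        volume (W A ∩ Set.Icc (b * (N : ℝ) ^ 2 + c) (b' * (N : ℝ) ^ 2 + c)) := by
  have hN0 : (0 : ℝ) < (N : ℝ) ^ 2 := by
    have : (0 : ℝ) < N := by exact_mod_cast hN
    positivity
  have h1 : {x : ℝ | x ∈ Set.Icc b b' ∧ ⌊x * (N : ℝ) ^ 2 + c⌋ ∈ A} =
      (fun x => x * (N : ℝ) ^ 2) ⁻¹' ((fun x => x + c) ⁻¹'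
        (W A ∩ Set.Icc (b * (N : ℝ) ^ 2 + c) (b' * (N : ℝ) ^ 2 + c))) := by
    ext x
    simp only [W, Set.mem_ofPred_eq, Set.mem_Icc, Set.mem_preimage, Set.mem_inter_iff,
      add_le_add_iff_right, mul_le_mul_iff_left₀ hN0]
    exact and_comm
  rw [h1, Real.volume_preimage_mul_right hN0.ne', measure_preimage_add_right,
    abs_of_pos (inv_pos.2 hN0)]

theorem meas_set (b b' R s : ℝ) (N : ℕ) (A : Set ℤ) :
    MeasurableSet {x ∈ box b b' R | mm s N x ∈ A} := by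
  refine (measurableSet_Icc.prod measurableSet_Icc).inter ?_
  have h1 : Measurable fun x : ℝ × ℝ => mm s N x := by
    unfold mm
    exact Int.measurable_floor.comp (by fun_prop)
  exact h1 MeasurableSet.of_discrete

theorem vol_eq (b b' R s : ℝ) (N : ℕ) (A : Set ℤ) :
    volume {x ∈ box b b' R | mm s N x ∈ A} = ∫⁻ y in Set.Icc (-R) R,
      volume {x : ℝ | x ∈ Set.Icc b b' ∧ ⌊x * (N : ℝ) ^ 2 + (y * N + s)⌋ ∈ A} := by
  rw [Measure.volume_eq_prod, Measure.prod_apply_symm (meas_set b b' R s N A),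
    ← lintegral_indicator measurableSet_Icc]
  refine lintegral_congr fun y => ?_
  by_cases hy : y ∈ Set.Icc (-R) R
  · rw [Set.indicator_of_mem hy]
    congr 1
    ext x
    simp only [Set.mem_preimage, Set.mem_ofPred_eq, Pool.Agent.Helper91K1.PQ.box, Set.mem_prod, mm, add_assoc]
    exact ⟨fun h => ⟨h.1.1, h.2⟩, fun h => ⟨⟨h.1, hy⟩, h.2⟩⟩
  · rw [Set.indicator_of_notMem hy]
    have : (fun x => (x, y)) ⁻¹' {x ∈ box b b' R | mm s N x ∈ A} = ∅ := by
      ext x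
      simp only [Set.mem_preimage, Set.mem_ofPred_eq, Pool.Agent.Helper91K1.PQ.box, Set.mem_prod, Set.mem_empty_iff_false,
        iff_false]
      exact fun h => hy h.1.2
    rw [this, measure_empty]

theorem t_ONE : S_ONE := by
  intro b b' R hb hR L T hL hT N hN s A
  have hN0 : (0 : ℝ) < (N : ℝ) ^ 2 := by
    have : (0 : ℝ) < N := by exact_mod_cast hN
    positivity
  have hvR : (volume : Measure ℝ) (Set.Icc (-R) R) = ENNReal.ofReal (2 * R) := by
    rw [Real.volume_Icc]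
    congr 1
    ring
  have hfin : volume {x ∈ box b b' R | mm s N x ∈ A} ≠ ⊤ := by
    refine ne_top_of_le_ne_top ?_ (measure_mono (Set.sep_subset _ _))
    rw [Pool.Agent.Helper91K1.PQ.box, Measure.volume_eq_prod, Measure.prod_prod, Real.volume_Icc, Real.volume_Icc]
    exact ENNReal.mul_ne_top ENNReal.ofReal_ne_top ENNReal.ofReal_ne_top
  have hlen : ∀ c : ℝ, b' * (N : ℝ) ^ 2 + c - (b * (N : ℝ) ^ 2 + c) = (b' - b) * (N : ℝ) ^ 2 :=
    fun c => by ring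
  have hle : ∀ c : ℝ, b * (N : ℝ) ^ 2 + c ≤ b' * (N : ℝ) ^ 2 + c := fun c => by
    have := mul_le_mul_of_nonneg_right hb.le hN0.le
    linarith
  constructor
  · intro h
    rcases lt_or_ge ((b' - b) * ((T : ℝ) / L) - 2 * L / (N : ℝ) ^ 2) 0 with h0 | h0
    · refine le_trans ?_ measureReal_nonneg
      exact (mul_neg_of_pos_of_neg (by positivity) h0).le
    · rw [Measure.real, ← ENNReal.ofReal_le_iff_le_toReal hfin, vol_eq]
      have h1 : ∀ y : ℝ, ENNReal.ofReal ((b' - b) * ((T : ℝ) / L) - 2 * L / (N : ℝ) ^ 2) ≤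
          volume {x : ℝ | x ∈ Set.Icc b b' ∧ ⌊x * (N : ℝ) ^ 2 + (y * N + s)⌋ ∈ A} := by
        intro y
        rw [sec A N hN]
        have h2 := one_ge hL hT h (hle (y * N + s))
        rw [hlen] at h2
        refine le_trans (le_of_eq ?_) (mul_le_mul_right h2 _)
        rw [← ENNReal.ofReal_mul (inv_nonneg.2 hN0.le)]
        congr 1
        field_simp
      calc ENNReal.ofReal (2 * R * ((b' - b) * ((T : ℝ) / L) - 2 * L / (N : ℝ) ^ 2))
          = ENNReal.ofReal ((b' - b) * ((T : ℝ) / L) - 2 * L / (N : ℝ) ^ 2) *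
            volume (Set.Icc (-R) R) := by
            rw [hvR, ← ENNReal.ofReal_mul h0, mul_comm]
        _ = ∫⁻ _ in Set.Icc (-R) R,
            ENNReal.ofReal ((b' - b) * ((T : ℝ) / L) - 2 * L / (N : ℝ) ^ 2) := by
            rw [setLIntegral_const]
        _ ≤ _ := lintegral_mono fun y => h1 y
  · intro h
    have h0 : 0 ≤ (b' - b) * ((T : ℝ) / L) + 2 * L / (N : ℝ) ^ 2 := by
      have : 0 ≤ b' - b := by linarith
      positivity
    rw [Measure.real]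
    refine ENNReal.toReal_le_of_le_ofReal (by positivity) ?_
    rw [vol_eq]
    have h1 : ∀ y : ℝ, volume {x : ℝ | x ∈ Set.Icc b b' ∧
        ⌊x * (N : ℝ) ^ 2 + (y * N + s)⌋ ∈ A} ≤
        ENNReal.ofReal ((b' - b) * ((T : ℝ) / L) + 2 * L / (N : ℝ) ^ 2) := by
      intro y
      rw [sec A N hN]
      have h2 := one_le hL hT h (hle (y * N + s))
      rw [hlen] at h2
      refine le_trans (mul_le_mul_right h2 _) (le_of_eq ?_)
      rw [← ENNReal.ofReal_mul (inv_nonneg.2 hN0.le)]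
      congr 1
      field_simp
    calc _ ≤ ∫⁻ _ in Set.Icc (-R) R,
          ENNReal.ofReal ((b' - b) * ((T : ℝ) / L) + 2 * L / (N : ℝ) ^ 2) :=
          lintegral_mono fun y => h1 y
      _ = ENNReal.ofReal ((b' - b) * ((T : ℝ) / L) + 2 * L / (N : ℝ) ^ 2) *
          volume (Set.Icc (-R) R) := by rw [setLIntegral_const]
      _ = _ := by rw [hvR, ← ENNReal.ofReal_mul h0, mul_comm]

end Pool.Agent.Helper64.PQ
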